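import Mathlib
import Pool.Agent.Helper280.GI.Inner
import Pool.Agent.Helper280.GI.PA2
import Pool.Agent.Helper280.GI.JTranspose
import Pool.Agent.Helper280.GI.JFredholm

set_option autoImplicit false

namespace Pool.Agent.Results.MP_86f994_an.GenInvPreservers

variable {H : Type*} [NormedAddCommGroup H] [InnerProductSpace ℂ H]

/-- `T` has a generalized inverse: some `S` satisfies `T S T = T` and `S T S = S`. -/
def HasGenInv (T : H →L[ℂ] H) : Prop := ∃ S : H →L[ℂ] H, T * S * T = T ∧ S * T * S = S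

/-- `T` has finite rank: its range is finite-dimensional. -/
def FiniteRank (T : H →L[ℂ] H) : Prop := FiniteDimensional ℂ (LinearMap.range (T : H →ₗ[ℂ] H))

/-- `A` is Fredholm: its range is closed, its kernel and its cokernel are finite-dimensional. -/
def Fredholm (A : H →L[ℂ] H) : Prop :=
  IsClosed (Set.range A) ∧ FiniteDimensional ℂ (LinearMap.ker (A : H →ₗ[ℂ] H)) ∧
    FiniteDimensional ℂ (H ⧸ LinearMap.range (A : H →ₗ[ℂ] H))

/-- `T'` is the transpose of `T` with respect to the orthonormal basis `e`: the `e j`-coefficient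
of `T' (e i)` is the `e i`-coefficient of `T (e j)`, for all `i` and `j`. -/
def IsTransposeOf (e : HilbertBasis ℕ ℂ H) (T' T : H →L[ℂ] H) : Prop :=
  ∀ i j, inner ℂ (e j) (T' (e i)) = inner ℂ (e i) (T (e j))

open Pool.Agent.Helper280.GI in
/-- Let `H` be an infinite-dimensional separable complex Hilbert space with orthonormal basis `e`
and let `φ` be a linear map on `B(H)` which preserves generalized invertibility in both directions
and is surjective up to finite rank operators. Then there are Fredholm operators `A`, `B` and a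
linear map `χ` with values in the finite rank operators such that either `φ T = A T B + χ T` for
all `T`, or `φ T = A Tᵗʳ B + χ T` for all `T`. -/
theorem result {H : Type*} [NormedAddCommGroup H] [InnerProductSpace ℂ H] [CompleteSpace H]
    [TopologicalSpace.SeparableSpace H] (hH : ¬ FiniteDimensional ℂ H)
    (e : HilbertBasis ℕ ℂ H)
    (φ : (H →L[ℂ] H) →ₗ[ℂ] (H →L[ℂ] H))
    (hφ : ∀ T, HasGenInv T ↔ HasGenInv (φ T))
    (hsurj : ∀ A, ∃ B, FiniteRank (A - φ B)) :
    ∃ A B : H →L[ℂ] H, Fredholm A ∧ Fredholm B ∧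
      ∃ χ : (H →L[ℂ] H) →ₗ[ℂ] (H →L[ℂ] H), (∀ T, FiniteRank (χ T)) ∧
        ((∀ T, φ T = A * T * B + χ T) ∨
          (∀ T, ∃ T', IsTransposeOf e T' T ∧ φ T = A * T' * B + χ T)) := by
  have hrg : ∀ T, RG T ↔ RG (φ T) := fun T => by
    rw [← gi_iff, ← gi_iff]; exact hφ T
  have hsurj' : ∀ A, ∃ B, FR (A - φ B) := hsurj
  -- `φ` maps finite rank operators to finite rank operators, in both directions
  have hfr : ∀ T, FR T ↔ FR (φ T) := by
    intro T
    constructor
    · intro hT
      by_contra hcon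
      obtain ⟨Y, hY1, hY2⟩ := exists_rg_not_rg hH hcon
      obtain ⟨B, hB⟩ := hsurj' Y
      have h1 : RG (φ B) := (rg_congr hB).1 hY1
      have h2 : RG B := (hrg B).2 h1
      have h3 : RG (B + T) := by
        have : FR ((B + T) - B) := by simpa using hT
        exact (rg_congr this).2 h2
      have h4 : RG (φ B + φ T) := by
        rw [← map_add]; exact (hrg _).1 h3
      apply hY2
      have h5 : FR ((Y + φ T) - (φ B + φ T)) := by simpa using hB
      exact (rg_congr h5).2 h4
    · intro hT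
      by_contra hcon
      obtain ⟨Y, hY1, hY2⟩ := exists_rg_not_rg hH hcon
      apply hY2
      rw [hrg, map_add]
      have h5 : FR ((φ Y + φ T) - φ Y) := by simpa using hT
      exact (rg_congr h5).2 ((hrg Y).1 hY1)
  -- semi-Fredholm operators
  have hsf : ∀ T, (LI T ∨ RI T) ↔ (LI (φ T) ∨ RI (φ T)) := by
    intro T
    rw [sf_iff hH, sf_iff hH]
    constructor
    · intro h Y'
      obtain ⟨Y, hY⟩ := hsurj' Y'
      obtain ⟨δ, hδ, h1⟩ := h Y
      refine ⟨δ, hδ, fun t ht => ?_⟩
      have h2 := (hrg _).1 (h1 t ht)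
      rw [map_add, map_smul] at h2
      have h3 : FR ((φ T + t • Y') - (φ T + t • φ Y)) := by
        rw [add_sub_add_left_eq_sub, ← smul_sub]; exact hY.smul t
      exact (rg_congr h3).2 h2
    · intro h Y
      obtain ⟨δ, hδ, h1⟩ := h (φ Y)
      refine ⟨δ, hδ, fun t ht => ?_⟩
      rw [hrg, map_add, map_smul]
      exact h1 t ht
  -- Fredholm operators
  have hinv : ∀ T, (LI T ∧ RI T) ↔ (LI (φ T) ∧ RI (φ T)) := by
    intro T
    rw [inv_char hH, inv_char hH]
    refine and_congr (hsf T) ?_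
    constructor
    · intro h Y'
      obtain ⟨Y, hY⟩ := hsurj' Y'
      obtain ⟨t, ht⟩ := h Y
      refine ⟨t, fun hcon => ht ?_⟩
      rw [hsf, map_sub, map_smul]
      have h3 : FR ((Y' - t • φ T) - (φ Y - t • φ T)) := by simpa using hY
      exact hcon.imp (li_congr h3).1 (ri_congr h3).1
    · intro h Y
      obtain ⟨t, ht⟩ := h (φ Y)
      refine ⟨t, fun hcon => ht ?_⟩
      rw [hsf, map_sub, map_smul] at hcon
      exact hcon
  -- normalisation
  have h1inv : LI (1 : H →L[ℂ] H) ∧ RI (1 : H →L[ℂ] H) :=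
    ⟨⟨1, by rw [mul_one, sub_self]; exact FR.zero⟩, ⟨1, by rw [mul_one, sub_self]; exact FR.zero⟩⟩
  obtain ⟨u, hu⟩ := inv_iff_unit.1 ((hinv 1).1 h1inv)
  obtain ⟨A', hA'⟩ := qm_surjective H ((u⁻¹ : (QH H)ˣ) : QH H)
  have hA1 : FR (A' * φ 1 - 1) := by
    rw [← qm_eq, map_mul, hA', ← hu, Units.inv_mul, map_one]
  have hA2 : FR (φ 1 * A' - 1) := by
    rw [← qm_eq, map_mul, hA', ← hu, Units.mul_inv, map_one]
  let θ : (H →L[ℂ] H) →ₗ[ℂ] (H →L[ℂ] H) := (LinearMap.mulLeft ℂ A') ∘ₗ φ
  have hθ : ∀ T, θ T = A' * φ T := fun T => rfl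
  have hφθ : ∀ T, FR (φ T - φ 1 * θ T) := by
    intro T
    rw [hθ, ← mul_assoc]
    have e1 : φ T - φ 1 * A' * φ T = -((φ 1 * A' - 1) * φ T) := by noncomm_ring
    rw [e1]
    exact (hA2.mul_right _).neg
  have hqθ : ∀ T, qm H (θ T) = ((u⁻¹ : (QH H)ˣ) : QH H) * qm H (φ T) := by
    intro T; rw [hθ, map_mul, hA']
  have hPres : Pres θ := by
    refine ⟨hA1, fun T => ?_, fun T => ?_, fun X => ?_, fun T hT => ?_⟩
    · rw [hinv T, inv_iff_unit, inv_iff_unit, hqθ]
      exact (Units.isUnit_units_mul u⁻¹ _).symm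
    · rw [hfr T]
      constructor
      · intro h; rw [hθ]; exact h.mul_left _
      · intro h
        exact FR.of_sub (hφθ T) (h.mul_left _)
    · obtain ⟨B, hB⟩ := hsurj' (φ 1 * X)
      refine ⟨B, ?_⟩
      have e1 : X - θ B = A' * (φ 1 * X - φ B) - (A' * φ 1 - 1) * X := by
        rw [hθ]; noncomm_ring
      rw [e1]
      exact (hB.mul_left _).sub (hA1.mul_right _)
    · obtain ⟨s, hs⟩ := rg_iff.1 ((hrg T).1 hT)
      refine rg_iff.2 ⟨s * u, ?_⟩
      rw [hqθ]
      calc ((u⁻¹ : (QH H)ˣ) : QH H) * qm H (φ T) * (s * u) * (((u⁻¹ : (QH H)ˣ) : QH H) * qm H (φ T))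
          = ((u⁻¹ : (QH H)ˣ) : QH H) * (qm H (φ T) * s * ((u : QH H) * ((u⁻¹ : (QH H)ˣ) : QH H))
              * qm H (φ T)) := by simp only [mul_assoc]
        _ = _ := by rw [Units.mul_inv, mul_one, hs]
  -- final assembly from an inner near automorphism
  have hfin : ∀ (σ : (H →L[ℂ] H) →ₗ[ℂ] (H →L[ℂ] H)) (G G' : H →L[ℂ] H), FR (G' * G - 1) →
      FR (G * G' - 1) → (∀ T, FR (θ T - G * σ T * G')) →
      Fredholm (φ 1 * G) ∧ Fredholm G' ∧ ∀ T, FR (φ T - (φ 1 * G) * σ T * G') := by
    intro σ G G' hG hG' hT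
    refine ⟨?_, ?_, fun T => ?_⟩
    · refine fredholm_of (A' := G' * A') ?_ ?_
      · have e1 : G' * A' * (φ 1 * G) - 1 = G' * (A' * φ 1 - 1) * G + (G' * G - 1) := by
          noncomm_ring
        rw [e1]
        exact ((hA1.mul_left _).mul_right _).add hG
      · have e1 : φ 1 * G * (G' * A') - 1 = φ 1 * (G * G' - 1) * A' + (φ 1 * A' - 1) := by
          noncomm_ring
        rw [e1]
        exact ((hG'.mul_left _).mul_right _).add hA2
    · exact fredholm_of hG' hG
    · have e1 : φ T - (φ 1 * G) * σ T * G' = (φ T - φ 1 * θ T) + φ 1 * (θ T - G * σ T * G') := by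
        noncomm_ring
      rw [e1]
      exact (hφθ T).add ((hT T).mul_left _)
  rcases hPres.hom_or_anti hH with hhom | hanti
  · have hN : NearAut (fun T => θ T) := by
      refine ⟨fun x y => ?_, fun c x => ?_, hhom, hPres.one, hPres.fin, hPres.surj⟩
      · rw [map_add, sub_self]; exact FR.zero
      · rw [map_smul, sub_self]; exact FR.zero
    obtain ⟨G, G', hG, hG', hT⟩ := nearAut_inner hH hN
    obtain ⟨h1, h2, h3⟩ := hfin LinearMap.id G G' hG hG' hT
    refine ⟨φ 1 * G, G', h1, h2, φ - (LinearMap.mulRight ℂ G') ∘ₗ (LinearMap.mulLeft ℂ (φ 1 * G)),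
      fun T => h3 T, Or.inl fun T => ?_⟩
    change φ T = φ 1 * G * T * G' + (φ T - φ 1 * G * T * G')
    abel
  · obtain ⟨tr, ht1, ht2, ht3, ht4, ht5⟩ := exists_transpose e
    have hN : NearAut (fun T => θ (tr T)) := by
      refine ⟨fun x y => ?_, fun c x => ?_, fun x y => ?_, ?_, fun x => ?_, fun y => ?_⟩
      · rw [map_add, map_add, sub_self]; exact FR.zero
      · rw [map_smul, map_smul, sub_self]; exact FR.zero
      · have := hanti (tr y) (tr x)
        rwa [← ht2] at this
      · change FR (θ (tr 1) - 1)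
        rw [ht4]; exact hPres.one
      · change FR x ↔ FR (θ (tr x))
        rw [← hPres.fin]
        constructor
        · exact ht5 x
        · intro h
          have := ht5 _ h
          rwa [ht3] at this
      · obtain ⟨x, hx⟩ := hPres.surj y
        exact ⟨tr x, by change FR (y - θ (tr (tr x))); rwa [ht3]⟩
    obtain ⟨G, G', hG, hG', hT⟩ := nearAut_inner hH hN
    have hT' : ∀ T, FR (θ T - G * tr T * G') := by
      intro T
      have := hT (tr T)
      change FR (θ (tr (tr T)) - G * tr T * G') at this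
      rwa [ht3] at this
    obtain ⟨h1, h2, h3⟩ := hfin tr G G' hG hG' hT'
    refine ⟨φ 1 * G, G', h1, h2,
      φ - (LinearMap.mulRight ℂ G') ∘ₗ (LinearMap.mulLeft ℂ (φ 1 * G)) ∘ₗ tr,
      fun T => h3 T, Or.inr fun T => ⟨tr T, fun i j => ht1 T i j, ?_⟩⟩
    change φ T = φ 1 * G * tr T * G' + (φ T - φ 1 * G * tr T * G')
    abel

end Pool.Agent.Results.MP_86f994_an.GenInvPreservers
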